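import Pool.Agent.H43.PL.Final

/-!
# The simplex method on the square lattice

A polynomial-time version of the simplex method exists if and only if one exists for linear
programs of the following kind: all coefficients are `0`, `1` or `-1`; every inequality has at most
three variables, and every variable is in at most three inequalities (besides `x ≥ 0`); the
variables and the inequalities are placed at different points of the square lattice `ℤ²`, and an
inequality contains only variables at neighbouring points; only two right sides and only two
coefficients of the objective function are not zero.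

In fact every rational linear program is, after an affine change of coordinates that has a
projection to some of the coordinates as its inverse, a linear program of this kind.

*The construction.*  Every variable `x j` is given by a bundle of vertical wires with the values
`2 ^ l * x j`; for every inequality there are two horizontal wires, which collect the terms with
positive and with negative coefficients, according to the binary digits of the coefficients.  At
every crossing of a vertical wire with value `y` and a horizontal wire with value `s` there are
variables `p ≤ s + y`, `z ≤ p - s`, `t` and `q ≤ p - t`; the vertical wire continues with `z`, the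
horizontal one with `q`.  With `z ≤ t` the wires cross, and with `t ≤ 0` the value `y` is added to
`s`.  All these are inequalities in one direction, which hold as equations in the end: there is a
second, mirrored copy of the grid, with the opposite inequalities, behind the first one, and the
wires return through the second copy to the place where they started.  Here only inequalities with
coefficients `±1` occur, and no two equal inequalities in opposite directions, so that all
degrees are at most three.
-/

set_option autoImplicit false

namespace Pool.Agent.Results.MP_4d246d_lc.PlanarPrograms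

open Pool.Agent.Y644.QS Pool.Agent.NPC Pool.Agent.H43.PL

/-- `F` is a version of the simplex method for the linear programs in `S`: for `max c x` over
`P = {x : A x ≤ b, x ≥ 0}` with rational coefficients in `S` and a vertex `v` of `P`, the output is
the bit string of vertices `x 0 = v, …, x N` of `P`, such that `x (k + 1)` is joined to `x k` by an
edge of `P` along which the objective increases, and `x N` is optimal, or the output also contains
a direction `d` of an unbounded edge at `x N` along which the objective increases. -/
def SimplexMethodOn (F : List Bool → List Bool)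
    (S : ∀ m n : ℕ, (Fin m → Fin n → ℚ) → (Fin m → ℚ) → (Fin n → ℚ) → Prop) : Prop :=
  ∀ (m n : ℕ) (A : Fin m → Fin n → ℚ) (b : Fin m → ℚ) (c v : Fin n → ℚ), S m n A b c →
    re v ∈ Set.extremePoints ℝ (polyhedron A b) →
    ∃ (N : ℕ) (x : ℕ → Fin n → ℚ) (d : Option (Fin n → ℚ)),
      F (bits (Y644.QS.inp A b c v)) =
        bits (((List.range (N + 1)).map (fun k => List.ofFn (x k)), d.map List.ofFn) : Outp) ∧
      IsSimplexPath (polyhedron A b) c v N x d

/-- From every vertex of every linear program in `S` there is a path of at most `B` improving
edges to a vertex that is optimal or has an unbounded improving edge. -/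
def PathsOn (S : ∀ m n : ℕ, (Fin m → Fin n → ℚ) → (Fin m → ℚ) → (Fin n → ℚ) → Prop)
    (B : ∀ m n : ℕ, (Fin m → Fin n → ℚ) → (Fin m → ℚ) → (Fin n → ℚ) → ℕ) : Prop :=
  ∀ (m n : ℕ) (A : Fin m → Fin n → ℚ) (b : Fin m → ℚ) (c v : Fin n → ℚ), S m n A b c →
    re v ∈ Set.extremePoints ℝ (polyhedron A b) →
    ∃ (N : ℕ) (x : ℕ → Fin n → ℚ) (d : Option (Fin n → ℚ)),
      IsSimplexPath (polyhedron A b) c v N x d ∧ N ≤ B m n A b c

/-- 1. Every linear program is carried by an affine map (see `Carries`) to a linear program on the
square lattice (see `Lattice`), of polynomial size; it can be computed in polynomial time,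
together with the image of a given vertex.
2. There is a polynomial-time version of the simplex method if and only if there is one for the
linear programs on the square lattice.
3. From every vertex of every linear program there is a monotone path of polynomial length (in the
input size, the bit length of `(A, b, c)`), if and only if this holds for linear programs on the
square lattice, with a bound that is polynomial in the number of rows and columns.
4. For linear programs on the square lattice the input size (with the vertex) is polynomially
bounded in the number of rows and columns. -/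
theorem result :
    (∃ (E : List Bool → List Bool) (q : Polynomial ℕ), PolyTime E ∧
      ∀ (m n : ℕ) (A : Fin m → Fin n → ℚ) (b : Fin m → ℚ) (c : Fin n → ℚ),
        ∃ (m' n' : ℕ) (A' : Fin m' → Fin n' → ℚ) (b' : Fin m' → ℚ) (c' : Fin n' → ℚ)
          (T : (Fin n → ℝ) →ᵃ[ℝ] (Fin n' → ℝ)) (e : Fin n → Fin n') (κ : ℝ),
          Lattice m' n' A' b' c' ∧ m' + n' ≤ q.eval (size A b c) ∧
          Carries A b c A' b' c' T e κ ∧
          ∀ v : Fin n → ℚ, ∃ v' : Fin n' → ℚ, re v' = T (re v) ∧
            E (bits (Y644.QS.inp A b c v)) = bits (Y644.QS.inp A' b' c' v')) ∧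
    ((∃ F : List Bool → List Bool, PolyTime F ∧ SimplexMethodOn F fun _ _ _ _ _ => True) ↔
      ∃ F : List Bool → List Bool, PolyTime F ∧ SimplexMethodOn F Lattice) ∧
    ((∃ q : Polynomial ℕ, PathsOn (fun _ _ _ _ _ => True) fun _ _ A b c => q.eval (size A b c)) ↔
      ∃ q : Polynomial ℕ, PathsOn Lattice fun m n _ _ _ => q.eval (m + n)) ∧
    (∃ q : Polynomial ℕ, ∀ (m n : ℕ) (A : Fin m → Fin n → ℚ) (b : Fin m → ℚ) (c v : Fin n → ℚ),
      Lattice m n A b c → re v ∈ Set.extremePoints ℝ (polyhedron A b) →
      (bits (Y644.QS.inp A b c v)).length ≤ q.eval (m + n)) := by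
  obtain ⟨q1, hq1⟩ := exists_size_bound'
  obtain ⟨q2, hq2⟩ := lattice_size
  obtain ⟨q3, hq3⟩ := NPC.Y644.exists_vertex_bound
  refine ⟨⟨_, q1, poly_enc, fun m n A b c => ?_⟩, ⟨?_, ?_⟩, ⟨?_, ?_⟩, ⟨q3.comp q2, ?_⟩⟩
  · refine ⟨_, _, _, _, _, Tm (par (Y644.QS.inp A b c 0)) (Wd (Y644.QS.inp A b c 0)) n,
      em A b c 0, kap c, lattice_par (Y644.QS.inp A b c 0), hq1 m n A b c 0, carries A b c 0,
      fun v => ⟨stv A b c v, re_stv, ?_⟩⟩
    rw [enc_inp, encL_inp]
    rfl
  · rintro ⟨F, hF, h⟩
    exact ⟨F, hF, fun m n A b c v _ hv => h m n A b c v trivial hv⟩
  · rintro ⟨F, hF, h⟩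
    refine ⟨_, poly_lift hF, fun m n A b c v _ hv => ?_⟩
    have hc := carries A b c v
    have hv' : re (stv A b c v) ∈ Set.extremePoints ℝ
        (polyhedron (mA (par (Y644.QS.inp A b c v))) (mb (par (Y644.QS.inp A b c v)))) := by
      rw [hc.image, re_stv]
      exact extreme_up hc.proj hv
    obtain ⟨N, x, d, h1, h2⟩ := h _ _ _ _ _ _ (lattice_par (Y644.QS.inp A b c v)) hv'
    refine ⟨N, fun k => x k ∘ em A b c v, d.map fun f => f ∘ em A b c v, ?_, hc.path re_stv h2⟩
    rw [lift_inp h1]
  · rintro ⟨q, h⟩
    refine ⟨q.comp q2, fun m n A b c v hl hv => ?_⟩
    obtain ⟨N, x, d, h1, h2⟩ := h m n A b c v trivial hv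
    refine ⟨N, x, d, h1, h2.trans ?_⟩
    beta_reduce
    rw [Polynomial.eval_comp]
    exact eval_mono q (hq2 m n A b c hl)
  · rintro ⟨q, h⟩
    refine ⟨q.comp q1, fun m n A b c v _ hv => ?_⟩
    have hc := carries A b c v
    have hv' : re (stv A b c v) ∈ Set.extremePoints ℝ
        (polyhedron (mA (par (Y644.QS.inp A b c v))) (mb (par (Y644.QS.inp A b c v)))) := by
      rw [hc.image, re_stv]
      exact extreme_up hc.proj hv
    obtain ⟨N, x, d, h1, h2⟩ := h _ _ _ _ _ _ (lattice_par (Y644.QS.inp A b c v)) hv'
    refine ⟨N, fun k => x k ∘ em A b c v, d.map fun f => f ∘ em A b c v, hc.path re_stv h1,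
      h2.trans ?_⟩
    beta_reduce
    rw [Polynomial.eval_comp]
    exact eval_mono q (hq1 m n A b c v)
  · intro m n A b c v hl hv
    rw [Polynomial.eval_comp]
    exact (hq3 m n A b c v hv).trans (eval_mono q3 (hq2 m n A b c hl))

end Pool.Agent.Results.MP_4d246d_lc.PlanarPrograms
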